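import Mathlib
import Pool.Agent.W563.Core

/-!
# Lebesgue null sets are null for the generalized-strip outer measure

Let `K` be compact and let `(a i)` be finitely many gradients of norm at most `ε` with mutual
distances at least `h`, more of them than there can be points of `K` with mutual distances at
least `h`.  Among all heights `b ≥ 0` such that for no `i` the cell of `a i` of the function
`y ↦ max (⟪a i, y⟫ - b i)`, moved by `a i`, meets `K`, there is a least one.  If `b i > 0` then the
closed cell of `a i`, moved by `a i`, meets `K` in some `x i`, and by monotonicity of the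
subdifferential these `x i` have mutual distances at least `h`.  So some `b i` is zero, which
prevents all heights from running away to infinity, and the resulting polyhedral function `f` has
`K ⊆ S(f)` and Lipschitz constant at most `ε`.  A null set is covered by a sequence of compact
sets whose measures decrease as quickly as we please.
-/

set_option autoImplicit false

open MeasureTheory Metric Set
open scoped ENNReal NNReal

namespace Pool.Agent.Results.MP_0a22a9_gt.NullSets

/-- Euclidean space of dimension `d`. -/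
abbrev E (d : ℕ) : Type := EuclideanSpace ℝ (Fin d)

/-- A polyhedral function: the pointwise maximum of finitely many affine functions. -/
def IsPolyhedral {d : ℕ} (f : E d → ℝ) : Prop :=
  ∃ (n : ℕ) (a : Fin (n + 1) → E d) (b : Fin (n + 1) → ℝ),
    ∀ x, f x = Finset.univ.sup' Finset.univ_nonempty fun i => inner ℝ (a i) x + b i

/-- `y` is the proximal point of `x`: it minimises `z ↦ f z + |x - z|² / 2`. -/
def IsProx {d : ℕ} (f : E d → ℝ) (x y : E d) : Prop :=
  ∀ z, f y + ‖x - y‖ ^ 2 / 2 ≤ f z + ‖x - z‖ ^ 2 / 2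

/-- The set `S(f)` of all points at whose proximal point `f` is not differentiable. -/
def strip {d : ℕ} (f : E d → ℝ) : Set (E d) :=
  {x | ∃ y, IsProx f x y ∧ ¬ DifferentiableAt ℝ f y}

/-- A generalized strip: a set of the form `S(f)` with `f` polyhedral. -/
def IsGenStrip {d : ℕ} (S : Set (E d)) : Prop := ∃ f : E d → ℝ, IsPolyhedral f ∧ S = strip f

/-- The Lipschitz constant of `f`: the least `K` for which `f` is `K`-Lipschitz. -/
noncomputable def lipConst {d : ℕ} (f : E d → ℝ) : ℝ≥0∞ :=
  ⨅ (K : ℝ≥0) (_ : LipschitzWith K f), (K : ℝ≥0∞)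

/-- The width of a generalized strip: twice the infimum of the Lipschitz constants of the
polyhedral functions that define it. -/
noncomputable def width {d : ℕ} (S : Set (E d)) : ℝ≥0∞ :=
  2 * ⨅ (f : E d → ℝ) (_ : IsPolyhedral f) (_ : S = strip f), lipConst f

/-- The outer measure `γ`: the infimum of the total widths of the countable covers by
generalized strips. -/
noncomputable def gamma {d : ℕ} (A : Set (E d)) : ℝ≥0∞ :=
  ⨅ (S : ℕ → Set (E d)) (_ : ∀ i, IsGenStrip (S i)) (_ : A ⊆ ⋃ i, S i), ∑' i, width (S i)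

/-! ### From heights to a generalized strip -/

section
variable {d n : ℕ}

/-- the polyhedral function with gradients `a` and heights `b` -/
noncomputable def poly (a : Fin (n + 1) → E d) (b : Fin (n + 1) → ℝ) (x : E d) : ℝ :=
  Finset.univ.sup' Finset.univ_nonempty fun i => inner ℝ (a i) x - b i

lemma poly_isPolyhedral (a : Fin (n + 1) → E d) (b : Fin (n + 1) → ℝ) :
    IsPolyhedral (poly a b) :=
  ⟨n, a, fun i => - b i, fun x => by simp only [poly, sub_eq_add_neg]⟩

lemma le_poly (a : Fin (n + 1) → E d) (b : Fin (n + 1) → ℝ) (x : E d) (i : Fin (n + 1)) :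
    inner ℝ (a i) x - b i ≤ poly a b x :=
  Finset.le_sup' (fun i => inner ℝ (a i) x - b i) (Finset.mem_univ i)

lemma poly_lip (a : Fin (n + 1) → E d) (b : Fin (n + 1) → ℝ) (K : ℝ≥0) (ha : ∀ i, ‖a i‖ ≤ K) :
    LipschitzWith K (poly a b) := by
  apply LipschitzWith.of_le_add_mul
  intro x y
  apply Finset.sup'_le
  intro i _
  have h1 := le_poly a b y i
  have h2 : inner ℝ (a i) x - inner ℝ (a i) y ≤ K * dist x y := by
    rw [← inner_sub_right, dist_eq_norm]
    exact (real_inner_le_norm _ _).trans (mul_le_mul_of_nonneg_right (ha i) (norm_nonneg _))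
  linarith

/-- a Lipschitz function has proximal points -/
lemma exists_prox {f : E d → ℝ} {K : ℝ≥0} (hf : LipschitzWith K f) (x : E d) :
    ∃ y, IsProx f x y := by
  have hcont : Continuous fun z => f z + ‖x - z‖ ^ 2 / 2 := by
    have := hf.continuous
    fun_prop
  obtain ⟨y, _, hy⟩ := (isCompact_closedBall x (2 * K)).exists_isMinOn
    ⟨x, mem_closedBall_self (by positivity)⟩ hcont.continuousOn
  refine ⟨y, fun z => ?_⟩
  by_cases hz : z ∈ closedBall x (2 * K)
  · exact hy hz
  · rw [mem_closedBall, not_le] at hz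
    have h1 : f y + ‖x - y‖ ^ 2 / 2 ≤ f x + ‖x - x‖ ^ 2 / 2 :=
      hy (mem_closedBall_self (by positivity))
    have h2 : f x - f z ≤ K * dist x z := by
      have := hf.dist_le_mul x z
      rw [Real.dist_eq] at this
      exact (le_abs_self _).trans this
    rw [dist_comm] at hz
    rw [sub_self, norm_zero] at h1
    rw [dist_eq_norm] at h2 hz
    nlinarith [norm_nonneg (x - z)]

/-- at a point of differentiability the derivative of a maximum of affine functions is the
gradient of each active one -/
lemma fderiv_poly {a : Fin (n + 1) → E d} {b : Fin (n + 1) → ℝ} {y : E d}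
    (hd : DifferentiableAt ℝ (poly a b) y) {i : Fin (n + 1)}
    (hi : poly a b y = inner ℝ (a i) y - b i) : fderiv ℝ (poly a b) y = innerSL ℝ (a i) := by
  have hmin : IsLocalMin (fun z => poly a b z - innerSL ℝ (a i) z) y := by
    apply Filter.Eventually.of_forall
    intro z
    have := le_poly a b z i
    simp only [innerSL_apply_apply]
    linarith
  have h1 := hmin.fderiv_eq_zero
  rw [fderiv_fun_sub hd (innerSL ℝ (a i)).differentiableAt, ContinuousLinearMap.fderiv,
    sub_eq_zero] at h1
  exact h1

lemma subset_strip {a : Fin (n + 1) → E d} {b : Fin (n + 1) → ℝ} {K : Set (E d)}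
    (hinj : Function.Injective a)
    (hb : ∀ i, ∀ y ∈ W563.Strip.cell a b i, y + a i ∉ K) : K ⊆ strip (poly a b) := by
  intro x hx
  have hlip : LipschitzWith (∑ i, ‖a i‖₊) (poly a b) :=
    poly_lip a b _ fun i => by
      have : ‖a i‖₊ ≤ ∑ i, ‖a i‖₊ := Finset.single_le_sum (f := fun i => ‖a i‖₊) (fun _ _ => zero_le) (Finset.mem_univ i)
      exact_mod_cast this
  obtain ⟨y, hy⟩ := exists_prox hlip x
  refine ⟨y, hy, fun hd => ?_⟩
  obtain ⟨i, -, hi⟩ := Finset.exists_mem_eq_sup' (Finset.univ_nonempty (α := Fin (n + 1)))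
    fun i => inner ℝ (a i) y - b i
  have hi' : poly a b y = inner ℝ (a i) y - b i := hi
  have hDi := fderiv_poly hd hi'
  have hcell : y ∈ W563.Strip.cell a b i := by
    intro j hj
    by_contra hcon
    push Not at hcon
    have h1 := le_poly a b y j
    have hj' : poly a b y = inner ℝ (a j) y - b j := le_antisymm (hi'.trans_le hcon) h1
    have hDj := fderiv_poly hd hj'
    rw [hDi] at hDj
    have h2 : a i = a j := by
      apply ext_inner_right ℝ
      intro v
      have := DFunLike.congr_fun hDj v
      simpa using this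
    exact hj (hinj h2).symm
  have hxy : x - y = a i := by
    have hmin : IsLocalMin (fun z => poly a b z + ‖x - z‖ ^ 2 / 2) y :=
      Filter.Eventually.of_forall fun z => hy z
    have h1 : HasFDerivAt (fun z => poly a b z + ‖x - z‖ ^ 2 / 2)
        (innerSL ℝ (a i) + - innerSL ℝ (x - y)) y := by
      refine HasFDerivAt.add (hDi ▸ hd.hasFDerivAt) ?_
      have h2 : HasFDerivAt (fun z : E d => x - z) (-(ContinuousLinearMap.id ℝ (E d))) y :=
        (hasFDerivAt_id y).const_sub x
      have h3 := h2.norm_sq.mul_const (1 / 2)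
      have h4 : (fun z : E d => ‖x - z‖ ^ 2 / 2) = fun z => ‖x - z‖ ^ 2 * (1 / 2) := by
        funext z; ring
      have h5 : (-(innerSL ℝ (x - y)) : E d →L[ℝ] ℝ) = (1 / 2 : ℝ) •
          (2 • (innerSL ℝ (x - y)).comp (-(ContinuousLinearMap.id ℝ (E d)))) := by
        ext v
        simp
      rw [h4, h5]
      exact h3
    have h2 := hmin.hasFDerivAt_eq_zero h1
    apply ext_inner_right ℝ
    intro v
    have := DFunLike.congr_fun h2 v
    simp only [add_apply, neg_apply, innerSL_apply_apply, zero_apply] at this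
    linarith
  apply hb i y hcell
  rwa [← hxy, add_sub_cancel]

end

/-! ### Packing -/

section
variable {d : ℕ}

lemma exists_sep {h ε : ℝ} (hε : 0 < ε) :
    ∀ n : ℕ, (n : ℝ≥0∞) * volume (ball (0 : E d) h) < volume (closedBall (0 : E d) ε) →
      ∃ a : Fin (n + 1) → E d, (∀ i, ‖a i‖ ≤ ε) ∧ ∀ i j, i ≠ j → h ≤ ‖a i - a j‖ := by
  intro n
  induction n with
  | zero =>
    intro _
    refine ⟨fun _ => 0, fun _ => by simpa using hε.le, fun i j hij => ?_⟩
    exact absurd (Fin.ext (by omega)) hij
  | succ n ih =>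
    intro hn
    obtain ⟨a, ha, hs⟩ := ih (lt_of_le_of_lt (by gcongr; simp) hn)
    have h1 : volume (⋃ i, ball (a i) h) < volume (closedBall (0 : E d) ε) := by
      refine lt_of_le_of_lt (measure_iUnion_fintype_le _ _) ?_
      simp only [Measure.addHaar_ball_center]
      simpa using hn
    obtain ⟨p, hp1, hp2⟩ : ∃ p ∈ closedBall (0 : E d) ε, p ∉ ⋃ i, ball (a i) h := by
      by_contra hcon
      push Not at hcon
      exact absurd (measure_mono hcon) (not_le.2 h1)
    simp only [mem_iUnion, mem_ball, not_exists, not_lt, dist_eq_norm] at hp2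
    refine ⟨Fin.snoc a p, fun i => ?_, fun i j hij => ?_⟩
    · refine Fin.lastCases ?_ (fun i => ?_) i
      · simpa using hp1
      · simpa using ha i
    · revert hij
      refine Fin.lastCases ?_ (fun i => ?_) i
      · refine Fin.lastCases ?_ (fun j => ?_) j
        · intro hij; exact absurd rfl hij
        · intro _
          simpa using hp2 j
      · refine Fin.lastCases ?_ (fun j => ?_) j
        · intro _
          rw [norm_sub_rev]
          simpa using hp2 i
        · intro hij
          simp only [Fin.snoc_castSucc]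
          exact hs i j fun h => hij (by rw [h])

lemma packing {h : ℝ} {K : Set (E d)} {n : ℕ} (x : Fin n → E d) (hx : ∀ i, x i ∈ K)
    (hs : ∀ i j, i ≠ j → h ≤ ‖x i - x j‖) :
    (n : ℝ≥0∞) * volume (ball (0 : E d) (h / 2)) ≤ volume (cthickening (h / 2) K) := by
  have h1 : volume (⋃ i, ball (x i) (h / 2)) = (n : ℝ≥0∞) * volume (ball (0 : E d) (h / 2)) := by
    rw [measure_iUnion _ fun i => measurableSet_ball]
    · simp [Measure.addHaar_ball_center]
    · intro i j hij
      apply ball_disjoint_ball
      rw [dist_eq_norm]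
      have := hs i j hij
      linarith
  rw [← h1]
  apply measure_mono
  apply iUnion_subset
  intro i
  refine (ball_subset_closedBall).trans ?_
  exact closedBall_subset_cthickening (hx i) _

/-- A compact set of volume less than that of a ball of radius `ε / 2` lies in one generalized
strip whose defining function is `ε`-Lipschitz. -/
theorem compact_cover {K : Set (E d)} (hK : IsCompact K) {ε : ℝ≥0} (hε : 0 < ε)
    (hvol : volume K < volume (ball (0 : E d) (ε / 2))) :
    ∃ f : E d → ℝ, IsPolyhedral f ∧ LipschitzWith ε f ∧ K ⊆ strip f := by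
  have hε' : (0 : ℝ) < ε := hε
  -- choose the scale
  obtain ⟨h, hh, hT⟩ : ∃ h : ℝ, 0 < h ∧
      volume (cthickening (h / 2) K) < volume (ball (0 : E d) (ε / 2)) := by
    have h1 := tendsto_measure_cthickening_of_isCompact (μ := (volume : Measure (E d))) hK
    have h2 := h1.eventually_lt_const hvol
    have h3 : ∀ᶠ r in nhdsWithin (0 : ℝ) (Ioi 0),
        volume (cthickening r K) < volume (ball (0 : E d) (ε / 2)) :=
      h2.filter_mono nhdsWithin_le_nhds
    obtain ⟨r, hr1, hr2⟩ := (h3.and self_mem_nhdsWithin).exists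
    exact ⟨2 * r, by have : 0 < r := hr2; positivity, by simpa using hr1⟩
  set T := volume (cthickening (h / 2) K) with hTdef
  set v := volume (ball (0 : E d) (h / 2)) with hv
  have hv0 : v ≠ 0 := (measure_ball_pos volume _ (by positivity)).ne'
  have hvt : v ≠ ⊤ := measure_ball_lt_top.ne
  have hTt : T ≠ ⊤ := (hT.trans_le le_top).ne
  have hvr : 0 < v.toReal := ENNReal.toReal_pos hv0 hvt
  set n := ⌊T.toReal / v.toReal⌋₊ with hn
  have hn1 : (n : ℝ≥0∞) * v ≤ T := by
    rw [← ENNReal.toReal_le_toReal (ENNReal.mul_ne_top (by simp) hvt) hTt, ENNReal.toReal_mul,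
      ENNReal.toReal_natCast, ← le_div_iff₀ hvr]
    exact Nat.floor_le (by positivity)
  have hn2 : T < ((n + 1 : ℕ) : ℝ≥0∞) * v := by
    rw [← ENNReal.toReal_lt_toReal hTt (ENNReal.mul_ne_top (by simp) hvt), ENNReal.toReal_mul,
      ENNReal.toReal_natCast, ← div_lt_iff₀ hvr]
    have := Nat.lt_floor_add_one (T.toReal / v.toReal)
    exact_mod_cast this
  have hscale : ∀ r : ℝ, 0 < r → volume (ball (0 : E d) r) =
      ENNReal.ofReal (2 ^ d) * volume (ball (0 : E d) (r / 2)) := by
    intro r hr
    rw [Measure.addHaar_ball_of_pos _ _ hr, Measure.addHaar_ball_of_pos _ _ (half_pos hr),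
      ← mul_assoc, ← ENNReal.ofReal_mul (by positivity)]
    congr 2
    rw [finrank_euclideanSpace_fin, ← mul_pow]
    congr 1
    ring
  have hlt : (n : ℝ≥0∞) * volume (ball (0 : E d) h) < volume (closedBall (0 : E d) ε) := by
    calc (n : ℝ≥0∞) * volume (ball (0 : E d) h)
        = ENNReal.ofReal (2 ^ d) * ((n : ℝ≥0∞) * v) := by
          rw [hscale h hh]; ring
      _ ≤ ENNReal.ofReal (2 ^ d) * T := by gcongr
      _ < ENNReal.ofReal (2 ^ d) * volume (ball (0 : E d) (ε / 2)) := by
          apply (ENNReal.mul_lt_mul_iff_right _ _).2 hT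
          · simp
          · exact ENNReal.ofReal_ne_top
      _ = volume (ball (0 : E d) ε) := by
          rw [← hscale ε hε']
      _ ≤ volume (closedBall (0 : E d) ε) := measure_mono ball_subset_closedBall
  obtain ⟨a, ha, hs⟩ := exists_sep hε' n hlt
  obtain ⟨R, hR⟩ := hK.isBounded.subset_closedBall 0
  obtain ⟨b, hb⟩ := W563.Strip.exists_heights (a := a) (K := K) (ε := ε) (h := h) (R := R)
    hε' ha hs hK (fun x hx => by simpa using hR hx) (by
      rintro ⟨x, hx, hxs⟩
      exact absurd (packing x hx hxs) (not_le.2 hn2))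
  refine ⟨poly a b, poly_isPolyhedral a b, poly_lip a b ε ha, subset_strip ?_ hb⟩
  intro i j hij
  by_contra hne
  have := hs i j hne
  rw [hij, sub_self, norm_zero] at this
  linarith

end

/-! ### Countable covers of null sets by small compact sets -/

section
variable {d : ℕ}

lemma exists_compacts {A : Set (E d)} (hA : volume A = 0) (v : ℕ → ℝ≥0∞) (hv : ∀ j, 0 < v j) :
    ∃ K : ℕ → Set (E d), (∀ j, IsCompact (K j)) ∧ (∀ j, volume (K j) < v j) ∧ A ⊆ ⋃ j, K j := by
  classical
  -- a cover by countably many closed balls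
  obtain ⟨e, he0, he1⟩ : ∃ e : ℝ≥0∞, 0 < e ∧ e < min (v 0) 1 :=
    exists_between (lt_min (hv 0) zero_lt_one)
  obtain ⟨t, r, ht, -, -, hcov, hsum⟩ := Besicovitch.exists_closedBall_covering_tsum_measure_le
    (volume : Measure (E d)) he0.ne' (fun _ => Ioi 0) A (fun x _ δ hδ => by
      refine ⟨δ / 2, ?_, ?_, ?_⟩
      · exact half_pos hδ
      · exact half_pos hδ
      · exact half_lt_self hδ)
  rw [hA, zero_add] at hsum
  have := ht.toEncodable
  set Q : ℕ → Set (E d) := fun n => ⋃ b ∈ Encodable.decode₂ t n, closedBall (b : E d) (r b) with hQ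
  have hQc : ∀ n, IsCompact (Q n) := fun n =>
    Encodable.iUnion_decode₂_cases (C := IsCompact) isCompact_empty
      (fun b => isCompact_closedBall _ _)
  have hQsum : ∑' n, volume (Q n) ≤ e := by
    have := tsum_iUnion_decode₂ (fun s : Set (E d) => volume s) measure_empty
      (fun b : t => closedBall (b : E d) (r b))
    exact (le_of_eq this).trans hsum
  have hQcov : A ⊆ ⋃ n, Q n := by
    have := Encodable.iUnion_decode₂ (fun b : t => closedBall (b : E d) (r b))
    rw [hQ, this]
    intro x hx
    have h1 := hcov hx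
    simp only [mem_iUnion] at h1 ⊢
    obtain ⟨y, hy, hxy⟩ := h1
    exact ⟨⟨y, hy⟩, hxy⟩
  have hfin : ∑' n, volume (Q n) ≠ ⊤ :=
    (hQsum.trans_lt (he1.trans_le (min_le_right _ _)) |>.trans ENNReal.one_lt_top).ne
  -- block boundaries
  have htail := ENNReal.tendsto_sum_nat_add _ hfin
  have hM : ∀ j, ∃ m, ∀ n, m ≤ n → ∑' k, volume (Q (k + n)) < v j := by
    intro j
    have := htail.eventually_lt_const (hv j)
    obtain ⟨m, hm⟩ := Filter.eventually_atTop.1 this
    exact ⟨m, hm⟩
  choose M hM using hM
  let N : ℕ → ℕ := fun j => ∑ i ∈ Finset.range j, (M (i + 1) + 1)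
  have hN0 : N 0 = 0 := by simp [N]
  have hNs : ∀ j, N (j + 1) = N j + (M (j + 1) + 1) := fun j => Finset.sum_range_succ _ _
  have hNmono : ∀ j, N j < N (j + 1) := fun j => by rw [hNs]; omega
  have hNlt : ∀ j, ∑' k, volume (Q (k + N j)) < v j := by
    intro j
    cases j with
    | zero =>
      rw [hN0]
      simp only [add_zero]
      exact hQsum.trans_lt (he1.trans_le (min_le_left _ _))
    | succ j =>
      apply hM
      rw [hNs]
      omega
  refine ⟨fun j => ⋃ k ∈ Finset.Ico (N j) (N (j + 1)), Q k, fun j => ?_, fun j => ?_, ?_⟩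
  · exact (Finset.Ico (N j) (N (j + 1))).isCompact_biUnion fun k _ => hQc k
  · refine lt_of_le_of_lt (measure_biUnion_finset_le _ _) (lt_of_le_of_lt ?_ (hNlt j))
    rw [Finset.sum_Ico_eq_sum_range]
    have : ∀ k, volume (Q (N j + k)) = volume (Q (k + N j)) := fun k => by rw [add_comm]
    simp only [this]
    exact ENNReal.sum_le_tsum _
  · intro x hx
    obtain ⟨k, hk⟩ := mem_iUnion.1 (hQcov hx)
    have hex : ∃ j, k < N (j + 1) := by
      have hge : ∀ j, j ≤ N j := by
        intro j
        induction j with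
        | zero => omega
        | succ j ih => have := hNmono j; omega
      exact ⟨k, by have := hge (k + 1); omega⟩
    have hj := Nat.find_spec hex
    refine mem_iUnion.2 ⟨Nat.find hex, mem_iUnion₂.2 ⟨k, ?_, hk⟩⟩
    rw [Finset.mem_Ico]
    refine ⟨?_, hj⟩
    rcases Nat.eq_zero_or_pos (Nat.find hex) with h0 | hpos
    · rw [h0, hN0]; omega
    · have := Nat.find_min hex (Nat.sub_lt hpos one_pos)
      rw [Nat.sub_add_cancel (show 1 ≤ Nat.find hex from hpos)] at this
      exact not_lt.1 this

end

/-- **Positive answer to Q1**: in every dimension, every Lebesgue null set is `γ`-null. -/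
theorem result : ∀ d : ℕ, ∀ A : Set (E d), volume A = 0 → gamma A = 0 := by
  intro d A hA
  rw [← nonpos_iff_eq_zero]
  apply ENNReal.le_of_forall_pos_le_add
  intro δ hδ _
  rw [zero_add]
  -- the Lipschitz constants
  obtain ⟨ε, hε0, hεsum⟩ := NNReal.exists_pos_sum_of_countable (ι := ℕ) (half_pos hδ).ne'
  obtain ⟨c, hc, hcδ⟩ := hεsum
  obtain ⟨K, hK, hKv, hcov⟩ := exists_compacts hA
    (fun j => volume (ball (0 : E d) ((ε j : ℝ) / 2)))
    (fun j => measure_ball_pos volume _ (by have := hε0 j; positivity))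
  choose f hf hlip hKf using fun j => compact_cover (hK j) (hε0 j) (hKv j)
  refine iInf_le_of_le (fun j => strip (f j)) (iInf_le_of_le (fun j => ⟨f j, hf j, rfl⟩)
    (iInf_le_of_le (hcov.trans (iUnion_mono hKf)) ?_))
  have hw : ∀ j, width (strip (f j)) ≤ 2 * (ε j : ℝ≥0∞) := by
    intro j
    unfold width
    gcongr
    refine iInf_le_of_le (f j) (iInf_le_of_le (hf j) (iInf_le_of_le rfl ?_))
    exact iInf_le_of_le (ε j) (iInf_le_of_le (hlip j) le_rfl)
  calc ∑' j, width (strip (f j)) ≤ ∑' j, 2 * (ε j : ℝ≥0∞) := ENNReal.tsum_le_tsum hw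
    _ = 2 * ∑' j, (ε j : ℝ≥0∞) := ENNReal.tsum_mul_left
    _ = 2 * (c : ℝ≥0∞) := by rw [← ENNReal.coe_tsum hc.summable, hc.tsum_eq]
    _ ≤ 2 * ((δ / 2 : ℝ≥0) : ℝ≥0∞) := by gcongr
    _ = δ := by
      rw [← ENNReal.coe_two, ← ENNReal.coe_mul]
      congr 1
      exact mul_div_cancel₀ _ two_ne_zero

end Pool.Agent.Results.MP_0a22a9_gt.NullSets
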